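import Mathlib

/-! # MP_04e4c2_nt: the prime factors and the squarefree part of `a(n)` grow with `n` -/

set_option autoImplicit false

namespace H10SQ

/-- The sequence of the problem: `a 0 = 1`, `a 1 = 5`, `a n = (a (n - 1) - 1) a (n - 1) ^ 2 + 1` for `n ≥ 2`. -/
def a : ℕ → ℕ
  | 0 => 1
  | 1 => 5
  | n + 2 => (a (n + 1) - 1) * a (n + 1) ^ 2 + 1

/-- `t 0 = 2`, `t (n + 1) = t n ^ 3 + t n`. -/
def t : ℕ → ℕ
  | 0 => 2
  | n + 1 => t n ^ 3 + t n

theorem a_succ (n : ℕ) : a (n + 1) = t n ^ 2 + 1 := by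
  induction n with
  | zero => rfl
  | succ n ih =>
    show (a (n + 1) - 1) * a (n + 1) ^ 2 + 1 = _
    rw [ih, Nat.add_sub_cancel, t]
    ring

theorem t_pos (n : ℕ) : 0 < t n := by
  induction n with
  | zero => exact two_pos
  | succ n ih => rw [t]; positivity

theorem t_even (n : ℕ) : 2 ∣ t n := by
  induction n with
  | zero => exact dvd_refl 2
  | succ n ih => rw [t]; exact (dvd_pow ih three_ne_zero).add ih

theorem key {p : ℕ} [Fact p.Prime] {m : ℕ} (h : ((t m : ZMod p)) ^ 2 + 1 = 0) :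
    2 * m + 3 ≤ p := by
  have hstep : ∀ i, ((t (i + 1) : ZMod p)) ^ 2 + 1 =
      (((t i : ZMod p)) ^ 2 + 1 - 1) * (((t i : ZMod p)) ^ 2 + 1) ^ 2 + 1 := by
    intro i
    rw [t]
    push_cast
    ring
  -- once the value is `1`, it stays `1`
  have hone : ∀ i, ((t i : ZMod p)) ^ 2 + 1 = 1 → ∀ k, ((t (i + k) : ZMod p)) ^ 2 + 1 = 1 := by
    intro i hi k
    induction k with
    | zero => exact hi
    | succ k ih => rw [← add_assoc, hstep, ih]; ring
  have h01 : (0 : ZMod p) ≠ 1 := zero_ne_one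
  have hne1 : ∀ i, i ≤ m → ((t i : ZMod p)) ^ 2 + 1 ≠ 1 := by
    intro i him hi
    have := hone i hi (m - i)
    rw [Nat.add_sub_cancel' him, h] at this
    exact h01 this
  have hnz : ∀ i, i ≤ m → (t i : ZMod p) ≠ 0 := by
    intro i him hi
    apply hne1 i him
    rw [hi]; ring
  -- the values are different
  have hlt : ∀ i j, i < j → j ≤ m → ((t i : ZMod p)) ^ 2 ≠ ((t j : ZMod p)) ^ 2 := by
    intro i j hij hjm he
    have hk : ∀ k, ((t (i + k) : ZMod p)) ^ 2 + 1 = ((t (j + k) : ZMod p)) ^ 2 + 1 := by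
      intro k
      induction k with
      | zero => rw [add_zero, add_zero, he]
      | succ k ih => rw [← add_assoc, ← add_assoc, hstep, hstep, ih]
    have h1 := hk (m - j)
    rw [Nat.add_sub_cancel' hjm, h] at h1
    have h2 : ((t (i + (m - j) + 1) : ZMod p)) ^ 2 + 1 = 1 := by
      rw [hstep, h1]; ring
    exact hne1 _ (by omega) h2
  have hinj : ∀ i j, i ≤ m → j ≤ m → ((t i : ZMod p)) ^ 2 = ((t j : ZMod p)) ^ 2 → i = j := by
    intro i j hi hj he
    rcases lt_trichotomy i j with hij | hij | hij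
    · exact absurd he (hlt i j hij hj)
    · exact hij
    · exact absurd he.symm (hlt j i hij hi)
  -- `p` is odd
  have h2 : (2 : ZMod p) ≠ 0 := by
    intro h2
    have : (t m : ZMod p) = 0 := by
      obtain ⟨c, hc⟩ := t_even m
      rw [hc]
      push_cast
      rw [h2, zero_mul]
    exact hnz m le_rfl this
  let f : Option (Fin (m + 1) × Bool) → ZMod p := fun o =>
    match o with
    | none => 0
    | some (i, true) => (t i : ZMod p)
    | some (i, false) => -(t i : ZMod p)
  have hf : Function.Injective f := by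
    have hself : ∀ i : Fin (m + 1), (t i : ZMod p) ≠ -(t i : ZMod p) := by
      intro i hi
      have h3 : (2 : ZMod p) * (t i : ZMod p) = 0 := by
        rw [two_mul]
        nth_rewrite 1 [hi]
        ring
      rcases mul_eq_zero.1 h3 with h4 | h4
      · exact h2 h4
      · exact hnz i (Nat.lt_succ_iff.1 i.2) h4
    have hz : ∀ i : Fin (m + 1), (t i : ZMod p) ≠ 0 := fun i => hnz i (Nat.lt_succ_iff.1 i.2)
    have hsq : ∀ i j : Fin (m + 1), ((t i : ZMod p)) ^ 2 = ((t j : ZMod p)) ^ 2 → i = j :=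
      fun i j he => Fin.ext (hinj i j (Nat.lt_succ_iff.1 i.2) (Nat.lt_succ_iff.1 j.2) he)
    rintro (_ | ⟨i, _ | _⟩) (_ | ⟨j, _ | _⟩) he
    · rfl
    · exact absurd (neg_eq_zero.1 (show -(t j : ZMod p) = 0 from he.symm)) (hz j)
    · exact absurd (show (t j : ZMod p) = 0 from he.symm) (hz j)
    · exact absurd (neg_eq_zero.1 (show -(t i : ZMod p) = 0 from he)) (hz i)
    · have he' : -(t i : ZMod p) = -(t j : ZMod p) := he
      rw [hsq i j (by rw [neg_inj.1 he'])]
    · have he' : -(t i : ZMod p) = (t j : ZMod p) := he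
      have hij := hsq i j (by rw [← he', neg_sq])
      subst hij
      exact absurd he'.symm (hself i)
    · exact absurd (show (t i : ZMod p) = 0 from he) (hz i)
    · have he' : (t i : ZMod p) = -(t j : ZMod p) := he
      have hij := hsq i j (by rw [he', neg_sq])
      subst hij
      exact absurd he' (hself i)
    · have he' : (t i : ZMod p) = (t j : ZMod p) := he
      rw [hsq i j (by rw [he'])]
  have hcard := Fintype.card_le_of_injective f hf
  rw [Fintype.card_option, Fintype.card_prod, Fintype.card_fin, Fintype.card_bool, ZMod.card] at hcard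
  omega

/-- Every prime factor of `a n` is at least `2n + 1`. -/
theorem prime_ge {n p : ℕ} (hp : p.Prime) (h : p ∣ a n) : 2 * n + 1 ≤ p := by
  rcases n with _ | m
  · have := hp.one_lt
    omega
  · haveI : Fact p.Prime := ⟨hp⟩
    rw [a_succ, ← ZMod.natCast_eq_zero_iff] at h
    push_cast at h
    have := key (p := p) (m := m) h
    omega

/-- The squarefree part of `a n` is at least `2n + 1`. -/
theorem part_ge {n s y : ℕ} (hn : 1 ≤ n) (h : a n = s * y ^ 2) : 2 * n + 1 ≤ s := by
  obtain ⟨m, rfl⟩ : ∃ m, n = m + 1 := ⟨n - 1, by omega⟩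
  have hs1 : s ≠ 1 := by
    rintro rfl
    rw [a_succ, one_mul] at h
    have ht := t_pos m
    have h1 : t m < y := by nlinarith
    have h2 : y < t m + 1 := by nlinarith
    omega
  have hs0 : s ≠ 0 := by
    rintro rfl
    rw [a_succ, zero_mul] at h
    omega
  obtain ⟨p, hp, hps⟩ := Nat.exists_prime_and_dvd hs1
  exact (prime_ge hp (h ▸ Dvd.dvd.mul_right hps _)).trans (Nat.le_of_dvd (Nat.pos_of_ne_zero hs0) hps)

/-- `a n = 1` modulo `a i` for `1 ≤ i < n`. -/
theorem one_mod {i n : ℕ} (hi : 1 ≤ i) (hin : i < n) : a i ∣ a n - 1 := by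
  obtain ⟨j, rfl⟩ : ∃ j, i = j + 1 := ⟨i - 1, by omega⟩
  obtain ⟨m, rfl⟩ : ∃ m, n = m + 2 := ⟨n - 2, by omega⟩
  have hjm : j ≤ m := by omega
  clear hin hi
  have hT : ∀ m, t m ∣ t (m + 1) := fun m => by
    rw [t]; exact (dvd_pow_self _ three_ne_zero).add dvd_rfl
  have h1 : a (j + 1) ∣ t (j + 1) := by
    rw [a_succ, t]
    exact ⟨t j, by ring⟩
  have h2 : ∀ k, a (j + 1) ∣ t (j + 1 + k) := by
    intro k
    induction k with
    | zero => exact h1
    | succ k ih => exact ih.trans (hT _)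
  have h3 := h2 (m - j)
  rw [show j + 1 + (m - j) = m + 1 by omega] at h3
  rw [a_succ (m + 1), Nat.add_sub_cancel]
  exact h3.trans (dvd_pow_self _ two_ne_zero)

/-- If `a n = s y ^ 2`, then `s` is a square modulo every prime factor of `a i`, `1 ≤ i < n`. -/
theorem square_mod {i n s y q : ℕ} (hi : 1 ≤ i) (hin : i < n) (h : a n = s * y ^ 2) (hq : q.Prime)
    (hqi : q ∣ a i) : IsSquare (s : ZMod q) := by
  haveI : Fact q.Prime := ⟨hq⟩
  have h1 : q ∣ a n - 1 := hqi.trans (one_mod hi hin)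
  have h0 : 1 ≤ a n := by
    obtain ⟨m, rfl⟩ : ∃ m, n = m + 1 := ⟨n - 1, by omega⟩
    rw [a_succ]; omega
  have h2 : ((a n : ℕ) : ZMod q) = 1 := by
    have h3 := (ZMod.natCast_eq_zero_iff _ _).2 h1
    rw [Nat.cast_sub h0, Nat.cast_one, sub_eq_zero] at h3
    exact h3
  rw [h] at h2
  push_cast at h2
  have hy : (y : ZMod q) ≠ 0 := by
    intro hy
    rw [hy] at h2
    norm_num at h2
  refine ⟨(y : ZMod q)⁻¹, ?_⟩
  field_simp
  linear_combination h2

end H10SQ
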